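import Mathlib

namespace Pool.Agent.Results.MP_6b7d8e_lc.No

abbrev Str := List Bool

/-- `C_U(x | y) = k` -/
def HasC (U : Str → Str →. Str) (x y : Str) (k : ℕ) : Prop :=
  (∃ p, p.length = k ∧ x ∈ U p y) ∧ ∀ p, x ∈ U p y → k ≤ p.length

def PFree (U : Str → Str →. Str) : Prop :=
  ∀ y p p', p ≠ p' → p <+: p' → ¬ ((U p y).Dom ∧ (U p' y).Dom)

def PStable (U : Str → Str →. Str) : Prop :=
  ∀ y p p' x, p <+: p' → x ∈ U p y → x ∈ U p' y

/-- upper semicomputable, with Kraft sum at most one for every condition -/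
def Admissible (K : Str → Str → ℕ) : Prop :=
  (∃ Kn : ℕ → Str → Str → ℕ, Computable (fun a : ℕ × Str × Str => Kn a.1 a.2.1 a.2.2) ∧
    (∀ n x y, Kn (n + 1) x y ≤ Kn n x y) ∧ ∀ x y, ∃ N, ∀ n, N ≤ n → Kn n x y = K x y) ∧
  ∀ (y : Str) (s : Finset Str), ∑ x ∈ s, (1 / 2 : ℝ) ^ K x y ≤ 1

open Nat.Partrec (Code)
open Nat.Partrec.Code Encodable

def allL : ℕ → List Str
  | 0 => [[]]
  | k + 1 => (allL k).map (List.cons false) ++ (allL k).map (List.cons true)

theorem mem_allL (p : Str) : p ∈ allL p.length := by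
  induction p with
  | nil => simp [allL]
  | cons b p ih => cases b <;> simp [allL, ih]

def Ls : List Str := allL 1 ++ allL (encode [true] + 2)

def run (n : ℕ) (y p : Str) : Option ℕ :=
  evaln n (Denumerable.ofNat Code y.length) (encode (p, y))

def ok (n : ℕ) (y x p : Str) : Bool := ((run n y p).map fun v => decide (v ≠ encode x)).getD false

def hit (n : ℕ) (y : Str) (b : Bool) (x : Str) : Bool := Ls.any fun p => ok n y x (b :: p)

def st (y : Str) (n : ℕ) : ℕ := Nat.rec 0 (fun m s => if s = 0 then
  (bif hit m y false [] && hit m y true [] then 1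
    else bif hit m y false [false] && hit m y true [false] then 2 else 0) else s) n

def K0 (x : Str) : ℕ := if x = [] ∨ x = [false] then 2 else encode x + 3

def Kn (n : ℕ) (x y : Str) : ℕ :=
  if (x = [] ∧ st y n = 1) ∨ (x = [false] ∧ st y n = 2) then 1 else K0 x

open Classical in
noncomputable def K (x y : Str) : ℕ :=
  if ∃ n, (x = [] ∧ st y n = 1) ∨ (x = [false] ∧ st y n = 2) then 1 else K0 x

theorem ok_prim (x p : Str) : Primrec fun a : Str × ℕ => ok a.2 a.1 x p := by
  have h : Primrec fun a : Str × ℕ => run a.2 a.1 p :=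
    primrec_evaln.comp ((Primrec.snd.pair ((Primrec.ofNat Code).comp
      (Primrec.list_length.comp Primrec.fst))).pair
      (Primrec.encode.comp ((Primrec.const p).pair Primrec.fst)))
  refine Primrec.option_getD.comp (Primrec.option_map h ?_) (Primrec.const false)
  exact (Primrec.eq.comp Primrec.snd (Primrec.const (encode x))).not.decide.to₂

theorem hit_prim (b : Bool) (x : Str) : Primrec fun a : Str × ℕ => hit a.2 a.1 b x := by
  unfold hit
  induction Ls with
  | nil => exact Primrec.const false
  | cons p l ih => exact Primrec.or.comp (ok_prim x (b :: p)) ih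

theorem st_prim : Primrec₂ st := by
  have e : Primrec fun a : Str × ℕ × ℕ => (a.1, a.2.1) :=
    Primrec.fst.pair (Primrec.fst.comp Primrec.snd)
  refine Primrec.nat_rec (Primrec.const 0) (g := fun y q => if q.2 = 0 then
    (bif hit q.1 y false [] && hit q.1 y true [] then 1
      else bif hit q.1 y false [false] && hit q.1 y true [false] then 2 else 0) else q.2) ?_
  exact Primrec.ite (Primrec.eq.comp (Primrec.snd.comp Primrec.snd) (Primrec.const 0))
    (Primrec.cond (Primrec.and.comp ((hit_prim _ _).comp e) ((hit_prim _ _).comp e))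
      (Primrec.const 1)
      (Primrec.cond (Primrec.and.comp ((hit_prim _ _).comp e) ((hit_prim _ _).comp e))
        (Primrec.const 2) (Primrec.const 0))) (Primrec.snd.comp Primrec.snd)

theorem Kn_prim : Primrec fun a : ℕ × Str × Str => Kn a.1 a.2.1 a.2.2 := by
  have hx : Primrec fun a : ℕ × Str × Str => a.2.1 := Primrec.fst.comp Primrec.snd
  have hs : Primrec fun a : ℕ × Str × Str => st a.2.2 a.1 :=
    st_prim.comp (Primrec.snd.comp Primrec.snd) Primrec.fst
  refine Primrec.ite (((Primrec.eq.comp hx (Primrec.const [])).and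
    (Primrec.eq.comp hs (Primrec.const 1))).or ((Primrec.eq.comp hx (Primrec.const [false])).and
    (Primrec.eq.comp hs (Primrec.const 2)))) (Primrec.const 1) ?_
  exact Primrec.ite ((Primrec.eq.comp hx (Primrec.const [])).or
    (Primrec.eq.comp hx (Primrec.const [false]))) (Primrec.const 2)
    (Primrec.nat_add.comp (Primrec.encode.comp hx) (Primrec.const 3))

theorem st_succ (y : Str) (m : ℕ) : st y (m + 1) = if st y m = 0 then
    (bif hit m y false [] && hit m y true [] then 1
      else bif hit m y false [false] && hit m y true [false] then 2 else 0) else st y m := rfl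

theorem st_keep {y : Str} {m n : ℕ} (h : st y m ≠ 0) (hmn : m ≤ n) : st y n = st y m := by
  induction hmn with
  | refl => rfl
  | step _ ih => rw [st_succ, ih, if_neg h]

theorem st_why (y : Str) (n : ℕ) : (st y n = 1 → ∃ m, ∀ b, hit m y b [] = true) ∧
    (st y n = 2 → ∃ m, ∀ b, hit m y b [false] = true) := by
  induction n with
  | zero => exact ⟨fun h => absurd h (by simp [st]), fun h => absurd h (by simp [st])⟩
  | succ n ih =>
    rw [st_succ]
    split_ifs with c
    · constructor
      · intro h
        refine ⟨n, ?_⟩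
        revert h
        rw [Bool.forall_bool]
        cases hit n y false [] <;> cases hit n y true [] <;> cases hit n y false [false] <;>
          cases hit n y true [false] <;> simp
      · intro h
        refine ⟨n, ?_⟩
        revert h
        rw [Bool.forall_bool]
        cases hit n y false [] <;> cases hit n y true [] <;> cases hit n y false [false] <;>
          cases hit n y true [false] <;> simp
    · exact ih

theorem K0_ge (x : Str) : 2 ≤ K0 x := by unfold K0; split_ifs <;> omega

theorem adm : Admissible K := by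
  classical
  refine ⟨⟨Kn, Kn_prim.to_comp, fun n x y => ?_, fun x y => ?_⟩, fun y s => ?_⟩
  · have := K0_ge x
    unfold Kn
    split_ifs with h1 h2 h2
    · rfl
    · omega
    · refine absurd ?_ h1
      rwa [st_keep (m := n) (by omega) (Nat.le_succ n)]
    · rfl
  · unfold K
    split_ifs with h
    · obtain ⟨N, h⟩ := h
      refine ⟨N, fun n hn => ?_⟩
      rw [Kn, if_pos]
      rwa [st_keep (m := N) (by omega) hn]
    · exact ⟨0, fun n _ => by rw [Kn, if_neg fun c => h ⟨n, c⟩]⟩
  · have h1 : ∑ x ∈ s, (1 / 2 : ℝ) ^ encode x ≤ 2 := by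
      rw [← Finset.sum_image (f := fun n => (1 / 2 : ℝ) ^ n) encode_injective.injOn]
      exact (summable_geometric_two.sum_le_tsum _ fun _ _ => by positivity).trans
        tsum_geometric_two.le
    have h2 : (1 / 2 : ℝ) ^ K [] y + (1 / 2 : ℝ) ^ K [false] y ≤ 3 / 4 := by
      by_cases c1 : ∃ n, st y n = 1 <;> by_cases c2 : ∃ n, st y n = 2
      · obtain ⟨n, c1⟩ := c1
        obtain ⟨m, c2⟩ := c2
        have a1 := st_keep (m := n) (y := y) (by omega) (le_max_left n m)
        have a2 := st_keep (m := m) (y := y) (by omega) (le_max_right n m)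
        omega
      all_goals simp [K, K0, c1, c2]
      all_goals norm_num
    have h3 : ∀ x ∈ s, (1 / 2 : ℝ) ^ K x y ≤ (1 / 2) ^ encode x / 8 +
        ((if x = [] then (1 / 2 : ℝ) ^ K [] y else 0) +
          if x = [false] then (1 / 2 : ℝ) ^ K [false] y else 0) := by
      intro x _
      have : (0 : ℝ) < (1 / 2) ^ encode x / 8 := by positivity
      by_cases c1 : x = []
      · subst c1; simp only [if_true]; rw [if_neg (by simp)]; linarith
      · by_cases c2 : x = [false]
        · subst c2; simp only [if_true]; rw [if_neg (by simp)]; linarith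
        · rw [if_neg c1, if_neg c2, K, if_neg (by simp [c1, c2]), K0, if_neg (by simp [c1, c2]),
            pow_add]
          norm_num; linarith
    refine (Finset.sum_le_sum h3).trans ?_
    rw [Finset.sum_add_distrib, Finset.sum_add_distrib, ← Finset.sum_div, Finset.sum_ite_eq',
      Finset.sum_ite_eq']
    have : (0 : ℝ) < (1 / 2 : ℝ) ^ K [] y := by positivity
    have : (0 : ℝ) < (1 / 2 : ℝ) ^ K [false] y := by positivity
    split_ifs <;> linarith

theorem diag (U : Str → Str →. Str) (hU : Partrec₂ U)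
    (H : ∀ y p p' x x', p <+: p' → x ∈ U p y → x' ∈ U p' y → x = x') :
    ¬ ∀ x y, HasC U x y (K x y) := by
  intro hC
  obtain ⟨c, hc⟩ := exists_code.1 hU
  set y : Str := List.replicate (encode c) false with hy
  have hrun : ∀ n p, run n y p = evaln n c (encode (p, y)) := by
    intro n p; simp [run, hy]
  have hev : ∀ p, c.eval (encode (p, y)) = (U p y).map encode := by
    intro p; rw [hc]; simp only [encodek, Part.coe_some, Part.bind_some]
  have no : ∀ x m, K x y = 1 → ¬ ∀ b, hit m y b x = true := by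
    intro x m h1 h2
    obtain ⟨⟨q, a1, a2⟩, -⟩ := hC x y
    rw [h1] at a1
    obtain ⟨b, rfl⟩ := List.length_eq_one_iff.1 a1
    obtain ⟨p, -, a3⟩ := List.any_eq_true.1 (h2 b)
    unfold ok at a3
    rcases hr : run m y (b :: p) with _ | v
    · simp [hr] at a3
    · rw [hr] at a3
      rw [hrun] at hr
      have a4 := evaln_sound hr
      rw [hev] at a4
      obtain ⟨z, a5, rfl⟩ := (Part.mem_map_iff _).1 a4
      rw [H y [b] (b :: p) x z (by simp) a2 a5] at a3
      simp at a3
  have hK : ∀ x, K x y = K0 x := by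
    intro x
    rw [K, if_neg]
    rintro ⟨n, ⟨rfl, h⟩ | ⟨rfl, h⟩⟩
    · obtain ⟨m, h'⟩ := (st_why y n).1 h
      exact no _ m (by rw [K, if_pos ⟨n, Or.inl ⟨rfl, h⟩⟩]) h'
    · obtain ⟨m, h'⟩ := (st_why y n).2 h
      exact no _ m (by rw [K, if_pos ⟨n, Or.inr ⟨rfl, h⟩⟩]) h'
  have yes : ∀ b p z x, p ∈ Ls → z ∈ U (b :: p) y → z ≠ x →
      ∀ᶠ n in Filter.atTop, hit n y b x = true := by
    intro b p z x h1 h2 h3
    have : encode z ∈ c.eval (encode (b :: p, y)) := by rw [hev]; exact Part.mem_map _ h2
    obtain ⟨k, hk⟩ := evaln_complete.1 this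
    filter_upwards [Filter.eventually_ge_atTop k] with n hn
    refine List.any_eq_true.2 ⟨p, h1, ?_⟩
    have := evaln_mono hn hk
    rw [ok, hrun, Option.mem_def.1 this]
    simpa using h3
  have fin : ∀ x, x = [] ∨ x = [false] → ∀ b b', b ≠ b' →
      (∀ᶠ n in Filter.atTop, hit n y b x = true) →
      (∀ᶠ n in Filter.atTop, hit n y b' x = true) → False := by
    intro x hx b b' hb h1 h2
    obtain ⟨n, a1, a2⟩ := (h1.and h2).exists
    have a3 : hit n y false x = true ∧ hit n y true x = true := by
      revert hb a1 a2; cases b <;> cases b' <;> simp +contextual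
    have a4 : st y (n + 1) = 1 ∨ st y (n + 1) = 2 := by
      have gen : ∀ n, st y n = 0 ∨ st y n = 1 ∨ st y n = 2 := by
        intro n
        induction n with
        | zero => exact Or.inl rfl
        | succ n ih =>
          rw [st_succ]
          split_ifs
          · cases (hit n y false [] && hit n y true []) <;>
              cases (hit n y false [false] && hit n y true [false]) <;> simp
          · exact ih
      rw [st_succ]
      split_ifs with c
      · rcases hx with rfl | rfl
        · simp [a3.1, a3.2]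
        · cases (hit n y false [] && hit n y true []) <;> simp [a3.1, a3.2]
      · exact (gen n).resolve_left c
    rcases a4 with h | h
    · have := hK []
      rw [K, if_pos ⟨_, Or.inl ⟨rfl, h⟩⟩] at this
      simp [K0] at this
    · have := hK [false]
      rw [K, if_pos ⟨_, Or.inr ⟨rfl, h⟩⟩] at this
      simp [K0] at this
  obtain ⟨⟨p0, l0, m0⟩, -⟩ := hC [] y
  obtain ⟨⟨p1, l1, m1⟩, -⟩ := hC [false] y
  obtain ⟨⟨p2, l2, m2⟩, -⟩ := hC [true] y
  rw [hK] at l0 l1 l2
  obtain ⟨a0, a1, rfl⟩ := List.length_eq_two.1 (l0.trans (by simp [K0]))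
  obtain ⟨b0, b1, rfl⟩ := List.length_eq_two.1 (l1.trans (by simp [K0]))
  rw [K0, if_neg (by simp)] at l2
  rcases p2 with _ | ⟨c0, _ | ⟨c1, r⟩⟩
  · simp at l2
  · simp at l2
  have s1 : ∀ b : Bool, [b] ∈ Ls := fun b => List.mem_append_left _ (mem_allL [b])
  have s2 : c1 :: r ∈ Ls := by
    refine List.mem_append_right _ ?_
    have := mem_allL (c1 :: r)
    rwa [show (c1 :: r).length = encode [true] + 2 by simp only [List.length_cons] at l2 ⊢; omega]
      at this
  have n01 : ¬ (a0 = b0 ∧ a1 = b1) := by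
    rintro ⟨rfl, rfl⟩
    simpa using H y _ _ _ _ List.prefix_rfl m0 m1
  have n02 : ¬ (a0 = c0 ∧ a1 = c1) := by
    rintro ⟨rfl, rfl⟩
    simpa using H y _ _ _ _ (by simp) m0 m2
  have n12 : ¬ (b0 = c0 ∧ b1 = c1) := by
    rintro ⟨rfl, rfl⟩
    simpa using H y _ _ _ _ (by simp) m1 m2
  by_cases e : b0 = c0
  · refine fin [false] (Or.inr rfl) a0 c0 ?_ (yes _ _ _ _ (s1 _) m0 (by simp))
      (yes _ _ _ _ s2 m2 (by simp))
    revert n01 n02 n12 e
    cases a0 <;> cases a1 <;> cases b0 <;> cases b1 <;> cases c0 <;> cases c1 <;> simp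
  · exact fin [] (Or.inl rfl) b0 c0 e (yes _ _ _ _ (s1 _) m1 (by simp))
      (yes _ _ _ _ s2 m2 (by simp))

theorem result : ∃ K : Str → Str → ℕ, Admissible K ∧
    ∀ U : Str → Str →. Str, Partrec₂ U → PFree U ∨ PStable U → ¬ ∀ x y, HasC U x y (K x y) := by
  refine ⟨K, adm, fun U hU h => diag U hU fun y p p' x x' hp h1 h2 => ?_⟩
  rcases h with h | h
  · by_cases e : p = p'
    · subst e; exact Part.mem_unique h1 h2
    · exact absurd ⟨Part.dom_iff_mem.2 ⟨_, h1⟩, Part.dom_iff_mem.2 ⟨_, h2⟩⟩ (h y p p' e hp)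
  · exact Part.mem_unique (h y p p' x hp h1) h2

end Pool.Agent.Results.MP_6b7d8e_lc.No
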